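import Mathlib

/-!
# Iterated-index elements of random sets: definitions for MP_e3f158_nt.RandomThresholds
-/

set_option autoImplicit false

open Filter Topology MeasureTheory ProbabilityTheory

namespace Pool.Agent.L5helper7.RT

open Classical in
/-- the number of elements of `S` in `[1, m]` -/
noncomputable def cnt (S : Set ℕ) (m : ℕ) : ℕ := ((Finset.Icc 1 m).filter (fun j => j ∈ S)).card

/-- `m` is an `i`-prime of the set `S` (description by indices) -/
def IsP (S : Set ℕ) : ℕ → ℕ → Prop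
  | 0, m => 1 ≤ m ∧ m ∈ S
  | i + 1, m => (1 ≤ m ∧ m ∈ S) ∧ IsP S i (cnt S m)

/-- the index condition: `IsP S b v ↔ (1 ≤ v ∧ v ∈ S) ∧ Idx S b (cnt S v)` -/
def Idx (S : Set ℕ) : ℕ → ℕ → Prop
  | 0, _ => True
  | b + 1, j => IsP S b j

/-- the `x`-th element of `S` (`x ≥ 1`) among the positive integers -/
noncomputable def pr (S : Set ℕ) (x : ℕ) : ℕ := Nat.nth (fun m => 1 ≤ m ∧ m ∈ S) (x - 1)

/-- the `x`-th `i`-prime of `S` -/
noncomputable def iPrime (S : Set ℕ) (i x : ℕ) : ℕ := (pr S)^[i + 1] x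

/-- `m` has a representation of type `(a, b)` -/
def HasRep (S : Set ℕ) (a b m : ℕ) : Prop :=
  ∃ x y : ℕ, 1 ≤ x ∧ 1 ≤ y ∧ iPrime S a x + iPrime S b y = m ∧ iPrime S a x ≠ iPrime S b y

/-- the expectation of `g (T ∪ U)`, `U` the random subset of `(s, s + k]` in which the elements `m`
are chosen independently with probabilities `ρ m` -/
noncomputable def Ex (ρ : ℕ → ℝ) : ℕ → ℕ → (Finset ℕ → ℝ) → Finset ℕ → ℝ
  | _, 0, g, T => g T
  | s, k + 1, g, T => ρ (s + 1) * Ex ρ (s + 1) k g (insert (s + 1) T) +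
      (1 - ρ (s + 1)) * Ex ρ (s + 1) k g T

/-- one coin with probability `r` -/
noncomputable def AO (r : ℝ) (φ : ℕ → ℝ) (x : ℕ) : ℝ := r * φ (x + 1) + (1 - r) * φ x

/-- the coins `s + 1, …, s + k`, functions of the number of successes -/
noncomputable def Ec (ρ : ℕ → ℝ) : ℕ → ℕ → (ℕ → ℝ) → ℕ → ℝ
  | _, 0, φ, x => φ x
  | s, k + 1, φ, x => AO (ρ (s + 1)) (Ec ρ (s + 1) k φ) x

end Pool.Agent.L5helper7.RT
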