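import Pool.Agent.L5helper7.RT.Step

/-!
# Borel-Cantelli for the upper bound of the thresholds
-/

set_option autoImplicit false

open MeasureTheory ProbabilityTheory Finset Filter Topology
open Pool.Agent.L5helper48.RT Pool.Agent.L5helper30.RT

namespace Pool.Agent.L5helper7.RT

variable {Ω : Type*} [MeasurableSpace Ω]

/-- the probabilities of the model -/
def Model (μ : Measure Ω) (A : ℕ → Set Ω) (c C : ℝ) (m₀ : ℕ) : Prop :=
  (∀ m, m₀ ≤ m → Odd m → c / Real.log m ≤ (μ (A m)).toReal ∧ (μ (A m)).toReal ≤ C / Real.log m) ∧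
    ∀ m, m₀ ≤ m → Even m → μ (A m) = 0

/-- the length of the windows -/
noncomputable def ww (c : ℝ) (n : ℕ) : ℕ := ⌈10 / c * (Real.log n) ^ 2⌉₊

lemma log_top : Tendsto (fun n : ℕ => Real.log n) atTop atTop :=
  Real.tendsto_log_atTop.comp tendsto_natCast_atTop_atTop

/-- the conditions for large `n` -/
theorem bad_bound (μ : Measure Ω) [IsProbabilityMeasure μ] (A : ℕ → Set Ω) (hA : ∀ m, MeasurableSet (A m))
    (hind : iIndepSet A μ) (c C : ℝ) (hc : 0 < c) (m₀ : ℕ) (hM : Model μ A c C m₀) :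
    ∀ᶠ n : ℕ in atTop, ∀ a b k : ℕ, a + 1 ≤ k → b + 1 ≤ k → ((ww c n) ^ k) ^ 24 ≤ n →
      μ {ω | ¬ Good a b n (TT A (2 * n) ω)} ≤ ENNReal.ofReal (Real.exp (-√(n : ℝ)) + 2 / (n : ℝ) ^ 3) := by
  have hl := log_top
  filter_upwards [hl.eventually_ge_atTop (2 * c + 1), hl.eventually_ge_atTop (2 * C + 1),
    hl.eventually_ge_atTop (c + 10), hl.eventually_ge_atTop (m₀ + 3 : ℝ), eventually_ge_atTop (m₀ + 3)] with
      n h1 h2 h3 h4 h5
  intro a b k hka hkb hn
  set ℓ := Real.log n with hℓ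
  have hn0 : (0 : ℝ) < n := by
    have : 0 < n := by omega
    exact_mod_cast this
  have hℓ1 : 1 ≤ ℓ := by linarith
  have hℓ10 : 10 ≤ ℓ := by linarith
  have hlog2n : Real.log (2 * n) ≤ 2 * ℓ := by
    rw [Real.log_mul (by norm_num) hn0.ne']
    have : Real.log 2 ≤ 1 := by
      have := Real.log_two_lt_d9
      linarith
    linarith
  have hlog2n' : ℓ ≤ Real.log (2 * n) := Real.log_le_log hn0 (by linarith)
  set q := c / Real.log (2 * n) with hq
  have hL2 : 0 < Real.log (2 * n) := by linarith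
  have hq0 : 0 < q := by positivity
  have hq1 : q ≤ 1 / 2 := by
    rw [hq, div_le_iff₀ hL2]
    linarith
  have hw1 : 10 / c * ℓ ^ 2 ≤ (ww c n : ℝ) := Nat.le_ceil _
  have hwbig : ℓ * (10 / c * ℓ) ≤ (ww c n : ℝ) := by
    calc ℓ * (10 / c * ℓ) = 10 / c * ℓ ^ 2 := by ring
      _ ≤ _ := hw1
  have hcl : 1 ≤ 10 / c * ℓ := by
    rw [div_mul_eq_mul_div, le_div_iff₀ hc]
    nlinarith
  have hwℓ : ℓ ≤ (ww c n : ℝ) := by
    calc ℓ = ℓ * 1 := (mul_one ℓ).symm
      _ ≤ ℓ * (10 / c * ℓ) := mul_le_mul_of_nonneg_left hcl (by linarith)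
      _ ≤ _ := hwbig
  have hqw : 1 ≤ q * (ww c n : ℝ) := by
    rw [hq, div_mul_eq_mul_div, le_div_iff₀ hL2, one_mul]
    calc Real.log (2 * n) ≤ 2 * ℓ := hlog2n
      _ ≤ 10 * ℓ ^ 2 := by nlinarith
      _ = c * (10 / c * ℓ ^ 2) := by field_simp
      _ ≤ c * (ww c n : ℝ) := mul_le_mul_of_nonneg_left hw1 hc.le
  have hw10 : 10 ≤ ww c n := by
    have : (10 : ℝ) ≤ (ww c n : ℝ) := hℓ10.trans hwℓ
    exact_mod_cast this
  have hwm : m₀ + 3 ≤ ww c n := by
    have : ((m₀ + 3 : ℕ) : ℝ) ≤ (ww c n : ℝ) := by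
      push_cast
      linarith
    exact_mod_cast this
  have hmain := step1 μ A hA hind q hq0 hq1 n (ww c n) k (m₀ + 3) m₀ a b hw10 hqw (by omega) hwm (by omega)
    hka hkb hn (by
      intro m hm1 hm2 hmo
      have h6 := hM.1 m (by omega) hmo
      have hmr : (n : ℝ) < m := by exact_mod_cast hm1
      have hmr2 : (m : ℝ) ≤ 2 * n := by exact_mod_cast hm2
      have hlm : ℓ ≤ Real.log m := Real.log_le_log hn0 hmr.le
      have hlm2 : Real.log m ≤ Real.log (2 * n) := Real.log_le_log (by linarith) hmr2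
      refine ⟨?_, ?_⟩
      · refine le_trans ?_ h6.1
        exact div_le_div_of_nonneg_left hc.le (by linarith) hlm2
      · refine h6.2.trans ?_
        have h7 : C / Real.log m ≤ 1 / 2 := by
          rw [div_le_iff₀ (by linarith)]
          linarith
        linarith) (by
      intro m hm1 hm2 hme
      rw [hM.2 m (by omega) hme]
      simp)
  have hq' : 0 ≤ c / ℓ := by positivity
  have h8 := step2 μ A hA hind (c / ℓ) hq' n (ww c n) (m₀ + 3) m₀ (by omega) (by
      intro m hm1 hm2 hmo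
      have h6 := hM.1 m (by omega) hmo
      refine le_trans ?_ h6.1
      have hm3 : (3 : ℝ) ≤ m := by
        have : 3 ≤ m := by omega
        exact_mod_cast this
      have h9 : 0 < Real.log m := Real.log_pos (by linarith)
      exact div_le_div_of_nonneg_left hc.le h9 (Real.log_le_log (by linarith) (by exact_mod_cast hm2)))
    (by intro m hm1 hm2 hme; exact hM.2 m (by omega) hme)
  have h9 : ((n : ℝ) + 1) * Real.exp (-(c / ℓ * ((ww c n : ℝ) / 2 - 1))) ≤ 2 / (n : ℝ) ^ 3 := by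
    have h10 : 4 * ℓ ≤ c / ℓ * ((ww c n : ℝ) / 2 - 1) := by
      rw [div_mul_eq_mul_div, le_div_iff₀ (by linarith)]
      have h11 : 10 * ℓ ^ 2 ≤ c * (ww c n : ℝ) := by
        calc 10 * ℓ ^ 2 = c * (10 / c * ℓ ^ 2) := by field_simp
          _ ≤ c * (ww c n : ℝ) := mul_le_mul_of_nonneg_left hw1 hc.le
      nlinarith
    have h12 : Real.exp (-(c / ℓ * ((ww c n : ℝ) / 2 - 1))) ≤ 1 / (n : ℝ) ^ 4 := by
      calc Real.exp (-(c / ℓ * ((ww c n : ℝ) / 2 - 1))) ≤ Real.exp (-(4 * ℓ)) :=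
            Real.exp_le_exp.2 (by linarith)
        _ = 1 / (n : ℝ) ^ 4 := by
            rw [Real.exp_neg, show (4 : ℝ) * ℓ = ((4 : ℕ) : ℝ) * ℓ by norm_num, Real.exp_nat_mul,
              hℓ, Real.exp_log hn0, one_div]
    have hn1 : (1 : ℝ) ≤ n := by
      have : 1 ≤ n := by omega
      exact_mod_cast this
    calc ((n : ℝ) + 1) * Real.exp (-(c / ℓ * ((ww c n : ℝ) / 2 - 1)))
        ≤ (2 * n) * (1 / (n : ℝ) ^ 4) := by
          apply mul_le_mul (by linarith) h12 (Real.exp_pos _).le (by linarith)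
      _ = 2 / (n : ℝ) ^ 3 := by field_simp
  have h13 : (μ {ω | ¬ G0 (m₀ + 3) m₀ (ww c n) n (TT A n ω)}).toReal ≤ 2 / (n : ℝ) ^ 3 := by
    have h14 := h8.trans (ENNReal.ofReal_le_ofReal h9)
    exact ENNReal.toReal_le_of_le_ofReal (by positivity) h14
  exact (ENNReal.le_ofReal_iff_toReal_le (measure_ne_top _ _) (by positivity)).2 (by linarith)

lemma exp_sqrt_le (n : ℕ) (hn : 1 ≤ n) : (n : ℝ) * Real.exp (-√(n : ℝ)) ≤ 720 / (n : ℝ) ^ 2 := by
  have hn0 : (0 : ℝ) < n := by exact_mod_cast hn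
  have h1 := Real.pow_div_factorial_le_exp (√(n : ℝ)) (Real.sqrt_nonneg _) 6
  have h2 : (√(n : ℝ)) ^ 6 = (n : ℝ) ^ 3 := by
    calc (√(n : ℝ)) ^ 6 = ((√(n : ℝ)) ^ 2) ^ 3 := by ring
      _ = (n : ℝ) ^ 3 := by rw [Real.sq_sqrt hn0.le]
  rw [h2] at h1
  have h3 : (Nat.factorial 6 : ℝ) = 720 := by norm_num [Nat.factorial]
  rw [h3] at h1
  rw [Real.exp_neg, ← div_eq_mul_inv, div_le_div_iff₀ (Real.exp_pos _) (by positivity)]
  have h4 : (n : ℝ) ^ 3 ≤ 720 * Real.exp (√(n : ℝ)) := by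
    rw [div_le_iff₀ (by norm_num)] at h1
    linarith
  calc (n : ℝ) * (n : ℝ) ^ 2 = (n : ℝ) ^ 3 := by ring
    _ ≤ _ := h4

/-- almost surely all the large even numbers have representations -/
theorem good_ae (μ : Measure Ω) [IsProbabilityMeasure μ] (A : ℕ → Set Ω) (hA : ∀ m, MeasurableSet (A m))
    (hind : iIndepSet A μ) (c C : ℝ) (hc : 0 < c) (m₀ : ℕ) (hM : Model μ A c C m₀) :
    ∀ᵐ ω ∂μ, ∀ᶠ n : ℕ in atTop, ∀ a b k : ℕ, a + 1 ≤ k → b + 1 ≤ k → ((ww c n) ^ k) ^ 24 ≤ n →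
      Good a b n (TT A (2 * n) ω) := by
  classical
  obtain ⟨N0, hN0⟩ := eventually_atTop.1 ((bad_bound μ A hA hind c C hc m₀ hM).and
    ((log_top.eventually_ge_atTop (c + 1)).and (eventually_ge_atTop 1)))
  set Bad : ℕ → Set Ω := fun n => if N0 ≤ n then
    {ω | ∃ a b k : ℕ, a + 1 ≤ k ∧ b + 1 ≤ k ∧ ((ww c n) ^ k) ^ 24 ≤ n ∧ ¬ Good a b n (TT A (2 * n) ω)} else ∅
    with hBad
  have hbound : ∀ n, μ (Bad n) ≤ ENNReal.ofReal (722 / (n : ℝ) ^ 2) := by
    intro n
    by_cases hn : N0 ≤ n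
    · obtain ⟨h1, h2, h3⟩ := hN0 n hn
      have hw2 : 2 ≤ ww c n := by
        have h4 : (10 : ℝ) ≤ 10 / c * (Real.log n) ^ 2 := by
          rw [div_mul_eq_mul_div, le_div_iff₀ hc]
          nlinarith
        have h5 : (2 : ℝ) ≤ (ww c n : ℝ) := by
          have := Nat.le_ceil (10 / c * (Real.log n) ^ 2)
          unfold ww
          linarith
        exact_mod_cast h5
      have hk : ∀ k, ((ww c n) ^ k) ^ 24 ≤ n → k ≤ Nat.sqrt n := by
        intro k hk
        rw [Nat.le_sqrt]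
        have h4 : k < (ww c n) ^ k := by
          calc k < 2 ^ k := Nat.lt_two_pow_self
            _ ≤ (ww c n) ^ k := Nat.pow_le_pow_left hw2 k
        have h5 : 0 < (ww c n) ^ k := by omega
        calc k * k ≤ ((ww c n) ^ k) * ((ww c n) ^ k) := Nat.mul_le_mul h4.le h4.le
          _ = ((ww c n) ^ k) ^ 2 := by ring
          _ ≤ ((ww c n) ^ k) ^ 24 := Nat.pow_le_pow_right h5 (by norm_num)
          _ ≤ n := hk
      set r := Nat.sqrt n with hr
      set E : ℕ → ℕ → Set Ω := fun a b => {ω | ∃ k : ℕ, a + 1 ≤ k ∧ b + 1 ≤ k ∧ ((ww c n) ^ k) ^ 24 ≤ n ∧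
        ¬ Good a b n (TT A (2 * n) ω)} with hE
      have hsub : Bad n ⊆ ⋃ a ∈ range r, ⋃ b ∈ range r, E a b := by
        intro ω hω
        simp only [hBad, hn, if_true] at hω
        obtain ⟨a, b, k, h4, h5, h6, h7⟩ := hω
        have h8 := hk k h6
        simp only [Set.mem_iUnion, mem_range]
        exact ⟨a, by omega, b, by omega, k, h4, h5, h6, h7⟩
      have hEb : ∀ a b, μ (E a b) ≤ ENNReal.ofReal (Real.exp (-√(n : ℝ)) + 2 / (n : ℝ) ^ 3) := by
        intro a b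
        by_cases hex : ∃ k : ℕ, a + 1 ≤ k ∧ b + 1 ≤ k ∧ ((ww c n) ^ k) ^ 24 ≤ n
        · obtain ⟨k, h4, h5, h6⟩ := hex
          refine (measure_mono ?_).trans (h1 a b k h4 h5 h6)
          rintro ω ⟨k', _, _, _, h7⟩
          exact h7
        · have : E a b = ∅ := by
            rw [Set.eq_empty_iff_forall_notMem]
            rintro ω ⟨k', h4, h5, h6, _⟩
            exact hex ⟨k', h4, h5, h6⟩
          rw [this]
          simp
      have hn0 : (0 : ℝ) < n := by exact_mod_cast h3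
      calc μ (Bad n) ≤ μ (⋃ a ∈ range r, ⋃ b ∈ range r, E a b) := measure_mono hsub
        _ ≤ ∑ a ∈ range r, μ (⋃ b ∈ range r, E a b) := measure_biUnion_finset_le _ _
        _ ≤ ∑ a ∈ range r, ∑ b ∈ range r, μ (E a b) :=
            Finset.sum_le_sum (fun a _ => measure_biUnion_finset_le _ _)
        _ ≤ ∑ a ∈ range r, ∑ b ∈ range r, ENNReal.ofReal (Real.exp (-√(n : ℝ)) + 2 / (n : ℝ) ^ 3) :=
            Finset.sum_le_sum (fun a _ => Finset.sum_le_sum (fun b _ => hEb a b))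
        _ = ENNReal.ofReal ((r : ℝ) * r * (Real.exp (-√(n : ℝ)) + 2 / (n : ℝ) ^ 3)) := by
            rw [Finset.sum_const, Finset.sum_const, card_range, nsmul_eq_mul, nsmul_eq_mul,
              ← ENNReal.ofReal_natCast, ← ENNReal.ofReal_mul (by positivity),
              ← ENNReal.ofReal_mul (by positivity)]
            congr 1
            ring
        _ ≤ ENNReal.ofReal (722 / (n : ℝ) ^ 2) := by
            apply ENNReal.ofReal_le_ofReal
            have h4 : (r : ℝ) * r ≤ n := by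
              have : r * r ≤ n := Nat.sqrt_le n
              exact_mod_cast this
            have h5 := exp_sqrt_le n h3
            have h6 : (0 : ℝ) ≤ Real.exp (-√(n : ℝ)) + 2 / (n : ℝ) ^ 3 := by positivity
            calc (r : ℝ) * r * (Real.exp (-√(n : ℝ)) + 2 / (n : ℝ) ^ 3)
                ≤ n * (Real.exp (-√(n : ℝ)) + 2 / (n : ℝ) ^ 3) := mul_le_mul_of_nonneg_right h4 h6
              _ = n * Real.exp (-√(n : ℝ)) + 2 / (n : ℝ) ^ 2 := by field_simp
              _ ≤ 720 / (n : ℝ) ^ 2 + 2 / (n : ℝ) ^ 2 := by linarith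
              _ = 722 / (n : ℝ) ^ 2 := by ring
    · simp [hBad, hn]
  have hsum : ∑' n, μ (Bad n) ≠ ⊤ := by
    have h1 : Summable (fun n : ℕ => 722 / (n : ℝ) ^ 2) := by
      have := (Real.summable_one_div_nat_pow.2 (one_lt_two)).mul_left 722
      refine this.congr (fun n => by ring)
    exact ne_top_of_le_ne_top h1.tsum_ofReal_ne_top (ENNReal.tsum_le_tsum hbound)
  filter_upwards [ae_eventually_notMem hsum] with ω hω
  filter_upwards [hω, eventually_ge_atTop N0] with n hn1 hn2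
  intro a b k h1 h2 h3
  by_contra hcon
  apply hn1
  simp only [hBad, hn2, if_true]
  exact ⟨a, b, k, h1, h2, h3, hcon⟩

end Pool.Agent.L5helper7.RT
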