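import Pool.Agent.L5helper7.RT.Lib

/-!
# One even integer in the random model
-/

set_option autoImplicit false

namespace Pool.Agent.L5helper7.RT

open Finset Pool.Agent.L5helper48.RT Pool.Agent.L5helper30.RT

/-- `2 n` is the sum of two different elements of the types `a`, `b` -/
def Good (a b n : ℕ) (T : Finset ℕ) : Prop :=
  ∃ u v : ℕ, u ≠ v ∧ u + v = 2 * n ∧ IsP (T : Set ℕ) a u ∧ IsP (T : Set ℕ) b v

lemma cnt_finset (T : Finset ℕ) (n : ℕ) (hT : T ⊆ Icc 1 n) : cnt (T : Set ℕ) n = T.card := by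
  unfold cnt
  congr 1
  ext m
  simp only [mem_filter, mem_coe]
  exact ⟨fun h => h.2, fun h => ⟨hT h, h⟩⟩

lemma card_odd_Ioc (n s : ℕ) (U : Finset ℕ) (hU : U ⊆ Ioc n s) (ho : ∀ m ∈ U, Odd m) (h : n ≤ s) :
    2 * U.card ≤ (s - n) + 1 := by
  have h1 : U.card ≤ (Ico ((n + 1) / 2) ((s + 1) / 2)).card := by
    refine card_le_card_of_injOn (fun m => m / 2) ?_ ?_
    · intro m hm
      have h2 := mem_Ioc.1 (hU hm)
      obtain ⟨r, hr⟩ := ho m hm
      simp only [coe_Ico, Set.mem_Ico]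
      omega
    · intro m hm m' hm' hmm
      obtain ⟨r, hr⟩ := ho m hm
      obtain ⟨r', hr'⟩ := ho m' hm'
      simp only at hmm
      omega
  rw [Nat.card_Ico] at h1
  omega

lemma card_T0 (n m0 : ℕ) (T0 : Finset ℕ) (hT0 : T0 ⊆ Icc 1 n) (ho : ∀ m ∈ T0, m0 < m → Odd m) :
    2 * T0.card ≤ n + 2 * m0 + 1 := by
  have h1 : T0 ⊆ (T0.filter (fun m => m ≤ m0)) ∪ (T0.filter (fun m => m0 < m)) := by
    intro m hm
    simp only [mem_union, mem_filter]
    rcases le_or_gt m m0 with h | h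
    · left; exact ⟨hm, h⟩
    · right; exact ⟨hm, h⟩
  have h2 := card_le_card h1
  have h3 := card_union_le (T0.filter (fun m => m ≤ m0)) (T0.filter (fun m => m0 < m))
  have h4 : (T0.filter (fun m => m ≤ m0)).card ≤ m0 := by
    have : (T0.filter (fun m => m ≤ m0)) ⊆ Icc 1 m0 := by
      intro m hm
      rw [mem_filter] at hm
      rw [mem_Icc]
      exact ⟨(mem_Icc.1 (hT0 hm.1)).1, hm.2⟩
    calc _ ≤ (Icc 1 m0).card := card_le_card this
      _ = m0 := by simp
  have h5 : 2 * (T0.filter (fun m => m0 < m)).card ≤ (n - 0) + 1 := by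
    apply card_odd_Ioc 0 n
    · intro m hm
      rw [mem_filter] at hm
      have := mem_Icc.1 (hT0 hm.1)
      rw [mem_Ioc]
      omega
    · intro m hm
      rw [mem_filter] at hm
      exact ho m hm.1 hm.2
    · omega
  omega

open Classical in
/-- one trial -/
lemma one_trial (ρ : ℕ → ℝ) (hρ : ∀ m, 0 ≤ ρ m ∧ ρ m ≤ 1) (q : ℝ) (hq0 : 0 < q) (hq1 : q ≤ 1 / 2)
    (s L D : ℕ) (hs : Even s) (hD : 1 ≤ D)
    (hodd : ∀ m, s < m → m ≤ s + 2 * L + 1 → Odd m → q ≤ ρ m ∧ ρ m ≤ 1 - q)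
    (heven : ∀ m, s < m → m ≤ s + 2 * L + 1 → Even m → ρ m = 0) (J : ℕ → Prop)
    (T : Finset ℕ) (hT : T ⊆ Icc 1 s)
    (hJ : ∀ y, T.card ≤ y → y ≤ T.card + L → ∃ j, J j ∧ y ≤ j ∧ j < y + D)
    (hL : (8 * (D : ℝ) ^ 2 + 3) ≤ q * L) :
    Ex ρ s (2 * L + 1) (fun T' => if (s + 2 * L + 1 ∈ T' ∧
      J ((T'.filter (fun m => m ≤ s + 2 * L + 1)).card)) then 0 else 1) T ≤
        1 - q / (4 * ((L : ℝ) + 1)) := by
  set v := s + 2 * L + 1 with hv
  have hvodd : Odd v := by
    rw [hv]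
    exact (hs.add (even_two_mul L)).add_one
  have hρv := hodd v (by omega) (by omega) hvodd
  rw [ex_add]
  have h1 : Ex ρ s (2 * L) (fun T' => Ex ρ (s + 2 * L) 1 (fun T' => if (v ∈ T' ∧
      J ((T'.filter (fun m => m ≤ v)).card)) then (0 : ℝ) else 1) T') T ≤
      Ex ρ s (2 * L) (fun T' => 1 * (1 : ℝ) + (-ρ v) * (if J (T'.card + 1) then 1 else 0)) T := by
    apply ex_mono ρ hρ
    intro U hU hU0
    set T' := T ∪ U with hT'
    have hT'v : T' ⊆ Icc 1 (s + 2 * L) := by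
      intro m hm
      rw [hT', mem_union] at hm
      rw [mem_Icc]
      rcases hm with hm | hm
      · have := mem_Icc.1 (hT hm); omega
      · have := mem_Ioc.1 (hU hm); omega
    have hvn : v ∉ T' := by
      intro h
      have := mem_Icc.1 (hT'v h)
      omega
    have hf : ((insert v T').filter (fun m => m ≤ v)).card = T'.card + 1 := by
      rw [filter_true_of_mem]
      · exact card_insert_of_notMem hvn
      · intro m hm
        rw [mem_insert] at hm
        rcases hm with hm | hm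
        · omega
        · have := mem_Icc.1 (hT'v hm); omega
    have h2 : Ex ρ (s + 2 * L) 1 (fun T' => if (v ∈ T' ∧
      J ((T'.filter (fun m => m ≤ v)).card)) then (0 : ℝ) else 1) T' =
      ρ v * (if J (T'.card + 1) then 0 else 1) + (1 - ρ v) * 1 := by
      simp only [Ex]
      rw [← hv, hf]
      simp [hvn]
    rw [h2]
    by_cases hJ' : J (T'.card + 1)
    · simp only [hJ', if_true]
      linarith
    · simp only [hJ', if_false]
      linarith
  refine h1.trans ?_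
  rw [ex_lin]
  rw [ex_const]
  rw [ex_card ρ s (2 * L) (fun t => if J (t + 1) then 1 else 0) T hT]
  have h3 := ec_lower ρ q hq0 hq1 s L D hs hD
    (fun m h1 h2 h3 => hodd m h1 (by omega) h3) (fun m h1 h2 h3 => heven m h1 (by omega) h3) J T.card hJ hL
  have hL1 : (0 : ℝ) < 4 * ((L : ℝ) + 1) := by positivity
  have h4 : q * (1 / (4 * ((L : ℝ) + 1))) ≤ ρ v * Ec ρ s (2 * L) (fun t => if J (t + 1) then 1 else 0) T.card := by
    apply mul_le_mul hρv.1 h3 (by positivity) (hρ v).1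
  rw [mul_one_div] at h4
  linarith

/-- the trials -/
theorem fin_main (ρ : ℕ → ℝ) (hρ : ∀ m, 0 ≤ ρ m ∧ ρ m ≤ 1) (q : ℝ) (hq0 : 0 < q) (hq1 : q ≤ 1 / 2)
    (n w k x1 m0 a b : ℕ) (hw : 10 ≤ w) (hqw : 1 ≤ q * w) (hx1 : 2 ≤ x1) (hx1w : x1 ≤ w) (hm0w : m0 ≤ w)
    (hka : a + 1 ≤ k) (hkb : b + 1 ≤ k) (hn : (w ^ k) ^ 24 ≤ n)
    (hodd : ∀ m, n < m → m ≤ 2 * n → Odd m → q ≤ ρ m ∧ ρ m ≤ 1 - q)
    (heven : ∀ m, n < m → m ≤ 2 * n → Even m → ρ m = 0)
    (T0 : Finset ℕ) (hT0 : T0 ⊆ Icc 1 n)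
    (hgap : ∀ x, x1 ≤ x → x + w ≤ n → ∃ m, m ∈ T0 ∧ x ≤ m ∧ m < x + w)
    (ho : ∀ m ∈ T0, m0 < m → Odd m) :
    Ex ρ n n (fun T' => by classical exact if Good a b n T' then 0 else 1) T0 ≤ Real.exp (-√(n : ℝ)) := by
  classical
  -- sizes
  set X := w ^ k with hX
  have hk1 : 1 ≤ k := by omega
  have hwX : w ≤ X := by
    calc w = w ^ 1 := (pow_one w).symm
      _ ≤ w ^ k := Nat.pow_le_pow_right (by omega) hk1
  have hpa : w ^ (a + 1) ≤ X := Nat.pow_le_pow_right (by omega) hka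
  have hpb : w ^ b ≤ X := Nat.pow_le_pow_right (by omega) (by omega)
  have hX10 : 10 ≤ X := le_trans hw hwX
  set D := w ^ b with hD
  have hD1 : 1 ≤ D := Nat.one_le_pow _ _ (by omega)
  set L := w * (8 * D ^ 2 + 3) with hL
  set Δ := 2 * L + 2 + w ^ (a + 1) with hΔ
  set M := n / (4 * Δ) with hM
  have hLX : L ≤ 9 * X ^ 3 := by
    have h1 : L ≤ X * (8 * X ^ 2 + 3) := by
      rw [hL]
      apply Nat.mul_le_mul hwX
      have : D ^ 2 ≤ X ^ 2 := Nat.pow_le_pow_left hpb 2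
      omega
    have h2 : X * (8 * X ^ 2 + 3) ≤ 9 * X ^ 3 := by nlinarith [sq_nonneg X]
    omega
  have hΔX : Δ ≤ 19 * X ^ 3 := by
    have h2 : 2 + X ≤ X ^ 3 := by nlinarith [sq_nonneg X, Nat.mul_le_mul hX10 hX10]
    omega
  have hX24 : X ^ 24 ≤ n := hn
  have hXa : 1000 * X ^ 21 ≤ X ^ 24 := by
    have : (10 : ℕ) ^ 3 ≤ X ^ 3 := Nat.pow_le_pow_left hX10 3
    calc 1000 * X ^ 21 ≤ X ^ 3 * X ^ 21 := Nat.mul_le_mul_right _ (by omega)
      _ = X ^ 24 := by ring
  have hXb : X ^ 3 ≤ X ^ 21 := Nat.pow_le_pow_right (by omega) (by norm_num)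
  have hnX : 1000 * X ^ 3 ≤ n := by omega
  -- the two parts of the gap lemma
  obtain ⟨hg1, hg2⟩ := gapP (T0 : Set ℕ) w x1 n (by omega) hx1
    (fun x h1 h2 => by obtain ⟨m, h3, h4⟩ := hgap x h1 h2; exact ⟨m, by exact_mod_cast h3, h4⟩)
  have h2w : ∀ j, j + 1 ≤ k → x1 * (2 * w) ^ j ≤ X ^ 3 := by
    intro j hj
    have h1 : (2 * w) ^ j ≤ (w ^ 2) ^ j := Nat.pow_le_pow_left (by nlinarith) j
    have h2 : (w ^ 2) ^ j ≤ X ^ 2 := by
      rw [← pow_mul, hX, ← pow_mul]
      exact Nat.pow_le_pow_right (by omega) (by omega)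
    calc x1 * (2 * w) ^ j ≤ X * X ^ 2 := Nat.mul_le_mul (hx1w.trans hwX) (h1.trans h2)
      _ = X ^ 3 := by ring
  have hc1 : X ^ 3 ≤ T0.card := by
    have h1 := hg2 n (by nlinarith [hnX, Nat.le_self_pow (n := 3) (by norm_num) X]) le_rfl
    rw [cnt_finset T0 n hT0] at h1
    by_contra hcon
    push Not at hcon
    have h2 : w * (T0.card + 1) ≤ X * X ^ 3 := Nat.mul_le_mul hwX hcon
    have h3 : X * X ^ 3 ≤ X ^ 21 := by
      calc X * X ^ 3 = X ^ 4 := by ring
        _ ≤ X ^ 21 := Nat.pow_le_pow_right (by omega) (by norm_num)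
    have h4 : x1 ≤ X ^ 21 := (hx1w.trans hwX).trans (Nat.le_self_pow (by norm_num) X)
    omega
  have hc2 := card_T0 n m0 T0 hT0 ho
  -- the lower elements
  have hMn : M * (4 * Δ) ≤ n := Nat.div_mul_le_self n (4 * Δ)
  have hMΔ : 4 * (M * Δ) ≤ n := by
    calc 4 * (M * Δ) = M * (4 * Δ) := by ring
      _ ≤ n := hMn
  have hu : ∀ i, ∃ u, i < M → (IsP (T0 : Set ℕ) a u ∧ n - (i + 1) * Δ ≤ u ∧ u < n - (i + 1) * Δ + w ^ (a + 1)) := by
    intro i
    by_cases hi : i < M
    · have h1 : (i + 1) * Δ ≤ M * Δ := Nat.mul_le_mul_right _ hi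
      have h2 : Δ ≤ (i + 1) * Δ := Nat.le_mul_of_pos_left _ (by omega)
      obtain ⟨u, h3, h4, h5⟩ := hg1 a (n - (i + 1) * Δ) (by
        have := h2w a hka
        omega) (by omega)
      exact ⟨u, fun _ => ⟨h3, h4, h5⟩⟩
    · exact ⟨0, fun h => absurd h hi⟩
  choose u hu using hu
  have huT : ∀ i < M, u i ∈ T0 := by
    intro i hi
    have h1 := (hu i hi).1
    have : (u i : ℕ) ∈ (T0 : Set ℕ) := by
      cases a with
      | zero => exact h1.2
      | succ a => exact h1.1.2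
    exact_mod_cast this
  have hb : ∀ i < M, (i + 1) * Δ ≤ M * Δ ∧ Δ ≤ (i + 1) * Δ := by
    intro i hi
    exact ⟨Nat.mul_le_mul_right _ hi, Nat.le_mul_of_pos_left _ (by omega)⟩
  have huodd : ∀ i < M, Odd (u i) := by
    intro i hi
    apply ho (u i) (huT i hi)
    have h1 := (hu i hi).2.1
    have h2 := (hb i hi).1
    have h3 : m0 ≤ X ^ 3 := (hm0w.trans hwX).trans (Nat.le_self_pow (by norm_num) X)
    omega
  set v : ℕ → ℕ := fun i => 2 * n - u i with hv
  set s : ℕ → ℕ := fun i => 2 * n - u i - 1 - 2 * L with hs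
  have hkey : ∀ i < M, n + 2 ≤ s i ∧ v i = s i + 2 * L + 1 ∧ v i ≤ n + (i + 1) * Δ ∧ 4 * v i ≤ 5 * n ∧
      Even (s i) ∧ u i < n ∧ u i + v i = 2 * n := by
    intro i hi
    have h1 := (hu i hi).2.1
    have h2 := (hu i hi).2.2
    have h3 := (hb i hi).1
    have h4 := (hb i hi).2
    obtain ⟨r, hr⟩ := huodd i hi
    refine ⟨by simp only [hs]; omega, by simp only [hs, hv]; omega, by simp only [hv]; omega,
      by simp only [hv]; omega, ?_, by omega, by simp only [hv]; omega⟩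
    refine ⟨n - r - 1 - L, ?_⟩
    simp only [hs]
    omega
  have hstep : ∀ i, i + 1 < M → v i ≤ s (i + 1) := by
    intro i hi
    have h1 := (hu (i + 1) hi).2.2
    have h2 := (hu i (by omega)).2.1
    have h3 := (hb (i + 1) hi).1
    have h5 : (i + 1 + 1) * Δ = (i + 1) * Δ + Δ := by ring
    simp only [hs, hv]
    omega
  set p : ℝ := q / (4 * ((L : ℝ) + 1)) with hp
  have hL0 : (0 : ℝ) ≤ L := Nat.cast_nonneg L
  have hp0 : 0 ≤ p := by positivity
  have hp1 : p ≤ 1 := by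
    rw [hp, div_le_one (by positivity)]
    linarith
  have htr := trials ρ hρ n (2 * n) (by omega) p hp0 hp1 T0 hT0 M s v
    (fun i hi => by have := (hkey i hi).1; omega) (fun i hi => by have := (hkey i hi).2.1; omega) hstep
    (fun i hi => by have := (hkey i hi).2.2.2.1; omega)
    (fun i T' => v i ∈ T' ∧ Idx (T0 : Set ℕ) b ((T'.filter (fun m => m ≤ v i)).card))
    (by
      intro i hi T U hU
      have h1 : v i ∈ T ∪ U ↔ v i ∈ T := by
        rw [mem_union]
        constructor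
        · rintro (h | h)
          · exact h
          · exact absurd (hU _ h) (lt_irrefl _)
        · exact fun h => Or.inl h
      have h2 : (T ∪ U).filter (fun m => m ≤ v i) = T.filter (fun m => m ≤ v i) := by
        ext m
        simp only [mem_filter, mem_union]
        constructor
        · rintro ⟨h | h, h'⟩
          · exact ⟨h, h'⟩
          · exact absurd (hU _ h) (not_lt.2 h')
        · exact fun h => ⟨Or.inl h.1, h.2⟩
      rw [h1, h2])
    (by
      intro i hi U hU hU0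
      obtain ⟨h1, h2, h3, h4, h5, h6, h7⟩ := hkey i hi
      have hUodd : ∀ m ∈ U, Odd m := by
        intro m hm
        by_contra hcon
        rw [Nat.not_odd_iff_even] at hcon
        have := mem_Ioc.1 (hU hm)
        exact hU0 m hm (heven m (by omega) (by omega) hcon)
      have hUc := card_odd_Ioc n (s i) U hU hUodd (by omega)
      have hTU : T0 ∪ U ⊆ Icc 1 (s i) := by
        intro m hm
        rw [mem_union] at hm
        rw [mem_Icc]
        rcases hm with hm | hm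
        · have := mem_Icc.1 (hT0 hm); omega
        · have := mem_Ioc.1 (hU hm); omega
      have hcard1 : T0.card ≤ (T0 ∪ U).card := card_le_card subset_union_left
      have hcard2 : (T0 ∪ U).card ≤ T0.card + U.card := card_union_le _ _
      have hm0X : m0 ≤ X ^ 3 := (hm0w.trans hwX).trans (Nat.le_self_pow (by norm_num) X)
      have hDX : D ≤ X ^ 3 := hpb.trans (Nat.le_self_pow (by norm_num) X)
      have hJ : ∀ y, (T0 ∪ U).card ≤ y → y ≤ (T0 ∪ U).card + L →
          ∃ j, Idx (T0 : Set ℕ) b j ∧ y ≤ j ∧ j < y + D := by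
        intro y hy1 hy2
        cases hb' : b with
        | zero => exact ⟨y, trivial, le_rfl, by omega⟩
        | succ b' =>
          have h8 : w ^ (b' + 1) = D := by rw [hD, hb']
          obtain ⟨j, h9, h10, h11⟩ := hg1 b' y (by
            have := h2w b' (by omega)
            omega) (by rw [h8]; omega)
          exact ⟨j, h9, h10, by rw [← h8]; exact h11⟩
      have hLq : (8 * (D : ℝ) ^ 2 + 3) ≤ q * L := by
        have : (L : ℝ) = w * (8 * (D : ℝ) ^ 2 + 3) := by rw [hL]; push_cast; ring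
        rw [this, ← mul_assoc]
        nlinarith [sq_nonneg (D : ℝ)]
      have h8 := one_trial ρ hρ q hq0 hq1 (s i) L D h5 hD1
        (fun m h1' h2' h3' => hodd m (by omega) (by omega) h3')
        (fun m h1' h2' h3' => heven m (by omega) (by omega) h3') (Idx (T0 : Set ℕ) b) (T0 ∪ U) hTU hJ hLq
      have h9 : v i - s i = 2 * L + 1 := by omega
      rw [h9]
      have h10 : s i + 2 * L + 1 = v i := h2.symm
      rw [h10] at h8
      convert h8)
  have h2n : 2 * n - n = n := by omega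
  rw [h2n] at htr
  -- success gives a representation
  have hmono : Ex ρ n n (fun T' => if Good a b n T' then 0 else 1) T0 ≤
      Ex ρ n n (fun T' => if ∃ i < M, v i ∈ T' ∧
        Idx (T0 : Set ℕ) b ((T'.filter (fun m => m ≤ v i)).card) then 0 else 1) T0 := by
    apply ex_mono ρ hρ
    intro U hU hU0
    by_cases hex : ∃ i < M, v i ∈ T0 ∪ U ∧
        Idx (T0 : Set ℕ) b (((T0 ∪ U).filter (fun m => m ≤ v i)).card)
    · have hG : Good a b n (T0 ∪ U) := by
        obtain ⟨i, hi, h1, h2⟩ := hex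
        obtain ⟨h3, h4, h5, h6, h7, h8, h9⟩ := hkey i hi
        have hloc : ∀ j, 1 ≤ j → j ≤ n → (j ∈ ((T0 : Set ℕ)) ↔ j ∈ (((T0 ∪ U : Finset ℕ)) : Set ℕ)) := by
          intro j hj1 hj2
          rw [mem_coe, mem_coe, mem_union]
          constructor
          · exact fun h => Or.inl h
          · rintro (h | h)
            · exact h
            · have := mem_Ioc.1 (hU h)
              omega
        have hsub : T0 ∪ U ⊆ Icc 1 (2 * n) := by
          intro m hm
          rw [mem_union] at hm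
          rw [mem_Icc]
          rcases hm with hm | hm
          · have := mem_Icc.1 (hT0 hm); omega
          · have := mem_Ioc.1 (hU hm); omega
        refine ⟨u i, v i, by omega, h9, ?_, ?_⟩
        · exact (isP_local _ _ n hloc a (u i) (by omega)).1 (hu i hi).1
        · have hcnt : cnt (((T0 ∪ U : Finset ℕ)) : Set ℕ) (v i) = ((T0 ∪ U).filter (fun m => m ≤ v i)).card := by
            unfold cnt
            congr 1
            ext m
            simp only [mem_filter, mem_coe, mem_Icc]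
            constructor
            · exact fun h => ⟨h.2, h.1.2⟩
            · exact fun h => ⟨⟨(mem_Icc.1 (hsub h.1)).1, h.2⟩, h.1⟩
          have hmem : 1 ≤ v i ∧ v i ∈ (((T0 ∪ U : Finset ℕ)) : Set ℕ) := ⟨by omega, by exact_mod_cast h1⟩
          cases b with
          | zero => exact hmem
          | succ b' =>
            refine ⟨hmem, ?_⟩
            rw [hcnt]
            have h10 : IsP (T0 : Set ℕ) b' (((T0 ∪ U).filter (fun m => m ≤ v i)).card) := h2
            have h11 : ((T0 ∪ U).filter (fun m => m ≤ v i)).card ≤ n := by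
              have h12 : (((T0 ∪ U).filter (fun m => m ≤ v i)).card : ℕ) ∈ (T0 : Set ℕ) := by
                cases b' with
                | zero => exact h10.2
                | succ b'' => exact h10.1.2
              exact (mem_Icc.1 (hT0 (by exact_mod_cast h12))).2
            exact (isP_local _ _ n hloc b' _ h11).1 h10
      rw [if_pos hG]
      split_ifs <;> norm_num
    · rw [if_neg hex]
      split_ifs <;> norm_num
  refine hmono.trans (le_trans (le_of_eq ?_) (htr.trans ?_))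
  · congr 1
    funext T'
    congr
  -- the size of the bound
  have h1 : (1 - p) ^ M ≤ Real.exp (-p) ^ M := by
    apply pow_le_pow_left₀ (by linarith)
    have := Real.add_one_le_exp (-p)
    linarith
  refine h1.trans ?_
  rw [← Real.exp_nat_mul]
  apply Real.exp_le_exp.2
  have hXr : (10 : ℝ) ≤ X := by exact_mod_cast hX10
  have hLr : (L : ℝ) + 1 ≤ 10 * (X : ℝ) ^ 3 := by
    have h2 : (L : ℝ) ≤ 9 * (X : ℝ) ^ 3 := by exact_mod_cast hLX
    have h3 : (1 : ℝ) ≤ (X : ℝ) ^ 3 := one_le_pow₀ (by linarith)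
    linarith
  have hpl : 1 / (40 * (X : ℝ) ^ 4) ≤ p := by
    rw [hp, div_le_div_iff₀ (by positivity) (by positivity)]
    have h2 : (1 : ℝ) ≤ q * X := hqw.trans (mul_le_mul_of_nonneg_left (by exact_mod_cast hwX) hq0.le)
    have h3 : 1 * (4 * ((L : ℝ) + 1)) ≤ 40 * (X : ℝ) ^ 3 := by linarith
    have h4 : 40 * (X : ℝ) ^ 3 ≤ q * (40 * (X : ℝ) ^ 4) := by
      have : q * (40 * (X : ℝ) ^ 4) = 40 * (X : ℝ) ^ 3 * (q * X) := by ring
      rw [this]
      have h5 : 0 ≤ 40 * (X : ℝ) ^ 3 := by positivity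
      nlinarith
    linarith
  have hMl : (n : ℝ) / (80 * (X : ℝ) ^ 3) ≤ M := by
    have h2 : n < (M + 1) * (4 * Δ) := by
      have := Nat.lt_div_mul_add (a := n) (b := 4 * Δ) (by omega)
      rw [hM]
      linarith [this, add_mul (n / (4 * Δ)) 1 (4 * Δ)]
    have h3 : (n : ℝ) < ((M : ℝ) + 1) * (76 * (X : ℝ) ^ 3) := by
      have h4 : (n : ℝ) < ((M : ℝ) + 1) * (4 * Δ) := by exact_mod_cast h2
      have h5 : (4 * (Δ : ℝ)) ≤ 76 * (X : ℝ) ^ 3 := by
        have : (Δ : ℝ) ≤ 19 * (X : ℝ) ^ 3 := by exact_mod_cast hΔX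
        linarith
      have h6 : (0 : ℝ) ≤ (M : ℝ) + 1 := by positivity
      exact h4.trans_le (mul_le_mul_of_nonneg_left h5 h6)
    have h7 : 10 ^ 21 * (X : ℝ) ^ 3 ≤ n := by
      have h8 : (X : ℝ) ^ 24 ≤ n := by exact_mod_cast hX24
      have h9 : (10 : ℝ) ^ 21 ≤ (X : ℝ) ^ 21 := pow_le_pow_left₀ (by norm_num) hXr 21
      calc (10 : ℝ) ^ 21 * (X : ℝ) ^ 3 ≤ (X : ℝ) ^ 21 * (X : ℝ) ^ 3 :=
            mul_le_mul_of_nonneg_right h9 (by positivity)
        _ = (X : ℝ) ^ 24 := by ring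
        _ ≤ n := h8
    rw [div_le_iff₀ (by positivity)]
    have hX3 : (0 : ℝ) < (X : ℝ) ^ 3 := by positivity
    nlinarith
  have hfin : √(n : ℝ) ≤ M * p := by
    have hX24r : (X : ℝ) ^ 24 ≤ n := by exact_mod_cast hX24
    have hn0 : (0 : ℝ) < n := lt_of_lt_of_le (by positivity) hX24r
    have h2 : (X : ℝ) ^ 12 ≤ √(n : ℝ) := by
      apply Real.le_sqrt_of_sq_le
      rw [← pow_mul]
      exact hX24r
    have h3 : (n : ℝ) / (80 * (X : ℝ) ^ 3) * (1 / (40 * (X : ℝ) ^ 4)) ≤ M * p :=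
      mul_le_mul hMl hpl (by positivity) (by positivity)
    refine le_trans ?_ h3
    have h4 : (n : ℝ) / (80 * (X : ℝ) ^ 3) * (1 / (40 * (X : ℝ) ^ 4)) = n / (3200 * (X : ℝ) ^ 7) := by
      field_simp
      ring
    rw [h4, le_div_iff₀ (by positivity)]
    have h5 : 3200 * (X : ℝ) ^ 7 ≤ (X : ℝ) ^ 12 := by
      have h6 : (10 : ℝ) ^ 5 ≤ (X : ℝ) ^ 5 := pow_le_pow_left₀ (by norm_num) hXr 5
      have h7 : (X : ℝ) ^ 12 = (X : ℝ) ^ 5 * (X : ℝ) ^ 7 := by ring
      rw [h7]
      have h8 : (0 : ℝ) ≤ (X : ℝ) ^ 7 := by positivity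
      nlinarith
    calc √(n : ℝ) * (3200 * (X : ℝ) ^ 7) ≤ √(n : ℝ) * √(n : ℝ) :=
          mul_le_mul_of_nonneg_left (h5.trans h2) (Real.sqrt_nonneg _)
      _ = n := Real.mul_self_sqrt hn0.le
  have : (M : ℝ) * -p = -(M * p) := by ring
  rw [this]
  linarith

end Pool.Agent.L5helper7.RT
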