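import Pool.Agent.L5helper48.RT.Bridge
import Pool.Agent.L5helper48.RT.Gap
import Pool.Agent.L5helper48.RT.LocalLimit
import Pool.Agent.L5helper48.RT.Growth
import Pool.Agent.L5helper30.RT.ExLemmas
import Pool.Agent.L5helper30.RT.Prob

/-!
# The lemmas of helper30 and helper48 used for RandomThresholds
-/
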