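import Pool.Agent.L5helper7.RT.Main

/-!
# Lower bound for the thresholds, and comparison with `f₂`
-/

set_option autoImplicit false

open MeasureTheory ProbabilityTheory Finset Filter Topology
open Pool.Agent.L5helper48.RT Pool.Agent.L5helper30.RT

namespace Pool.Agent.L5helper7.RT

variable {Ω : Type*} [MeasurableSpace Ω]

lemma log_le_two_sqrt (x : ℝ) (hx : 0 < x) : Real.log x ≤ 2 * √x := by
  have h1 : Real.log (√x) ≤ √x - 1 := Real.log_le_sub_one_of_pos (Real.sqrt_pos.2 hx)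
  rw [Real.log_sqrt hx.le] at h1
  linarith

/-- the expected number of chosen integers up to `N` -/
theorem sum_le (μ : Measure Ω) [IsProbabilityMeasure μ] (A : ℕ → Set Ω) (c C : ℝ) (m₀ : ℕ)
    (hM : Model μ A c C m₀) : ∀ᶠ N : ℕ in atTop,
      ∑ m ∈ Icc 1 N, (μ (A m)).toReal ≤ (2 + 2 * |C|) * N / Real.log N := by
  filter_upwards [log_top.eventually_ge_atTop 1, eventually_ge_atTop ((m₀ + 2) ^ 2)] with N h1 h2
  have hN1 : 1 ≤ N := by
    have : 0 < (m₀ + 2) ^ 2 := by positivity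
    omega
  have hN0 : (0 : ℝ) < N := by exact_mod_cast hN1
  set s := Nat.sqrt N with hs
  have hs1 : m₀ + 2 ≤ s := by
    rw [hs, Nat.le_sqrt']
    exact h2
  have hsN : s ≤ N := Nat.sqrt_le_self N
  have hlogN : 0 < Real.log N := by linarith
  have hsplit : Icc 1 N = Icc 1 s ∪ Ioc s N := by
    ext m
    simp only [mem_union, mem_Icc, mem_Ioc]
    omega
  have hdisj : Disjoint (Icc 1 s) (Ioc s N) := by
    rw [Finset.disjoint_left]
    intro m hm hm'
    rw [mem_Icc] at hm
    rw [mem_Ioc] at hm'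
    omega
  rw [hsplit, sum_union hdisj]
  have hA : ∑ m ∈ Icc 1 s, (μ (A m)).toReal ≤ 2 * N / Real.log N := by
    calc ∑ m ∈ Icc 1 s, (μ (A m)).toReal ≤ ∑ m ∈ Icc 1 s, (1 : ℝ) :=
          Finset.sum_le_sum (fun m _ => (rho01 μ A m).2)
      _ = s := by simp
      _ ≤ √(N : ℝ) := by
          apply Real.le_sqrt_of_sq_le
          have : s ^ 2 ≤ N := Nat.sqrt_le' N
          exact_mod_cast this
      _ ≤ 2 * N / Real.log N := by
          rw [le_div_iff₀ hlogN]
          have h3 := log_le_two_sqrt (N : ℝ) hN0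
          calc √(N : ℝ) * Real.log N ≤ √(N : ℝ) * (2 * √(N : ℝ)) :=
                mul_le_mul_of_nonneg_left h3 (Real.sqrt_nonneg _)
            _ = 2 * (√(N : ℝ) * √(N : ℝ)) := by ring
            _ = 2 * N := by rw [Real.mul_self_sqrt hN0.le]
  have hB : ∑ m ∈ Ioc s N, (μ (A m)).toReal ≤ 2 * |C| * N / Real.log N := by
    have h3 : ∀ m ∈ Ioc s N, (μ (A m)).toReal ≤ 2 * |C| / Real.log N := by
      intro m hm
      rw [mem_Ioc] at hm
      rcases Nat.even_or_odd m with he | ho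
      · rw [hM.2 m (by omega) he]
        simp only [ENNReal.toReal_zero]
        positivity
      · refine (hM.1 m (by omega) ho).2.trans ?_
        have h4 : N < m ^ 2 := by
          calc N < (s + 1) ^ 2 := Nat.lt_succ_sqrt' N
            _ ≤ m ^ 2 := Nat.pow_le_pow_left hm.1 2
        have h5 : Real.log N ≤ 2 * Real.log m := by
          have : Real.log (N : ℝ) ≤ Real.log ((m : ℝ) ^ 2) := Real.log_le_log hN0 (by exact_mod_cast h4.le)
          rw [Real.log_pow] at this
          exact_mod_cast this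
        have h6 : 0 < Real.log m := by linarith
        rw [div_le_div_iff₀ h6 hlogN]
        have h7 := le_abs_self C
        have h8 := abs_nonneg C
        nlinarith
    calc ∑ m ∈ Ioc s N, (μ (A m)).toReal ≤ (Ioc s N).card • (2 * |C| / Real.log N) :=
          Finset.sum_le_card_nsmul _ _ _ h3
      _ ≤ N * (2 * |C| / Real.log N) := by
          rw [nsmul_eq_mul, Nat.card_Ioc]
          apply mul_le_mul_of_nonneg_right _ (by positivity)
          have : N - s ≤ N := Nat.sub_le _ _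
          exact_mod_cast this
      _ = 2 * |C| * N / Real.log N := by ring
  calc _ ≤ 2 * N / Real.log N + 2 * |C| * N / Real.log N := add_le_add hA hB
    _ = (2 + 2 * |C|) * N / Real.log N := by ring

theorem count_ae (μ : Measure Ω) [IsProbabilityMeasure μ] (A : ℕ → Set Ω) (hA : ∀ m, MeasurableSet (A m))
    (hind : iIndepSet A μ) (c C : ℝ) (m₀ : ℕ) (hM : Model μ A c C m₀) :
    ∀ᵐ ω ∂μ, ∀ᶠ N : ℕ in atTop, (cnt (RR A ω) N : ℝ) ≤ (3 * (2 + 2 * |C|)) * N / Real.log N := by
  classical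
  obtain ⟨N0, hN0⟩ := eventually_atTop.1 ((sum_le μ A c C m₀ hM).and
    ((log_top.eventually_ge_atTop 1).and (eventually_ge_atTop 1)))
  set E : ℕ → ℝ := fun N => (2 + 2 * |C|) * N / Real.log N with hE
  set Bad : ℕ → Set Ω := fun N => if N0 ≤ N then
    {ω | 3 * E N ≤ (((Icc 1 N).filter (fun m => ω ∈ A m)).card : ℝ)} else ∅ with hBad
  have hbound : ∀ N, μ (Bad N) ≤ ENNReal.ofReal (720 / (N : ℝ) ^ 2) := by
    intro N
    by_cases hn : N0 ≤ N
    · obtain ⟨h1, h2, h3⟩ := hN0 N hn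
      have h4 := prob_count μ A hA hind N (E N) h1
      have hNpos : (0 : ℝ) < N := by exact_mod_cast h3
      have h5 : √(N : ℝ) ≤ E N := by
        have hlogN : 0 < Real.log N := by linarith
        rw [hE]
        simp only
        rw [le_div_iff₀ hlogN]
        have h3 := log_le_two_sqrt (N : ℝ) hNpos
        have h6 := abs_nonneg C
        calc √(N : ℝ) * Real.log N ≤ √(N : ℝ) * (2 * √(N : ℝ)) :=
              mul_le_mul_of_nonneg_left h3 (Real.sqrt_nonneg _)
          _ = 2 * (√(N : ℝ) * √(N : ℝ)) := by ring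
          _ = 2 * N := by rw [Real.mul_self_sqrt hNpos.le]
          _ ≤ (2 + 2 * |C|) * N := by nlinarith
      have h6 : Real.exp (-E N) ≤ 720 / (N : ℝ) ^ 2 := by
        have h7 := exp_sqrt_le N h3
        have h8 : Real.exp (-E N) ≤ Real.exp (-√(N : ℝ)) := Real.exp_le_exp.2 (by linarith)
        have h9 : (1 : ℝ) ≤ N := by exact_mod_cast h3
        have h10 := Real.exp_pos (-√(N : ℝ))
        nlinarith
      have h7 : μ {ω | 3 * E N ≤ (((Icc 1 N).filter (fun m => ω ∈ A m)).card : ℝ)} ≤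
          ENNReal.ofReal (720 / (N : ℝ) ^ 2) :=
        (ENNReal.le_ofReal_iff_toReal_le (measure_ne_top _ _) (by positivity)).2 (by
          refine le_trans ?_ h6
          convert h4)
      simpa only [hBad, hn, if_true] using h7
    · simp [hBad, hn]
  have hsum : ∑' n, μ (Bad n) ≠ ⊤ := by
    have h1 : Summable (fun n : ℕ => 720 / (n : ℝ) ^ 2) := by
      have := (Real.summable_one_div_nat_pow.2 (one_lt_two)).mul_left 720
      refine this.congr (fun n => by ring)
    exact ne_top_of_le_ne_top h1.tsum_ofReal_ne_top (ENNReal.tsum_le_tsum hbound)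
  filter_upwards [ae_eventually_notMem hsum] with ω hω
  filter_upwards [hω, eventually_ge_atTop N0] with N hn1 hn2
  simp only [hBad, hn2, if_true, Set.mem_setOf_eq, not_le] at hn1
  have h1 : cnt (RR A ω) N = ((Icc 1 N).filter (fun m => ω ∈ A m)).card := by
    unfold cnt RR
    congr 1
    ext m
    simp only [mem_filter, mem_Icc, Set.mem_setOf_eq]
    constructor
    · rintro ⟨h1, h2, h3⟩
      exact ⟨h1, h3⟩
    · rintro ⟨h1, h3⟩
      exact ⟨h1, h1.1, h3⟩
  rw [h1]
  refine hn1.le.trans (le_of_eq ?_)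
  rw [hE]
  ring

theorem lower (μ : Measure Ω) [IsProbabilityMeasure μ] (A : ℕ → Set Ω) (hA : ∀ m, MeasurableSet (A m))
    (hind : iIndepSet A μ) (c C : ℝ) (hc : 0 < c) (m₀ : ℕ) (hM : Model μ A c C m₀) (h1 : μ (A 1) = 0) :
    ∀ᵐ ω ∂μ, ∃ K : ℕ, ∀ a b, K ≤ max a b → ∃ n : ℕ,
      Real.exp (1 / 2 * (((max a b + 1 : ℕ) : ℝ) * Real.log ((max a b + 1 : ℕ) : ℝ))) ≤ n ∧
        ¬ HasRep (RR A ω) a b (2 * n) := by
  filter_upwards [upper μ A hA hind c C hc m₀ hM, count_ae μ A hA hind c C m₀ hM,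
    measure_eq_zero_iff_ae_notMem.1 h1] with ω h2 h3 h4
  obtain ⟨hinf, _, _⟩ := h2
  obtain ⟨x0, hx0⟩ := eventually_atTop.1 h3
  have h5 : 1 ∉ RR A ω := fun h => h4 h.2
  obtain ⟨K, hK⟩ := eventually_atTop.1 (growth (RR A ω) hinf h5 (3 * (2 + 2 * |C|)) x0 (by positivity) hx0)
  refine ⟨max K 100, fun a b hab => ?_⟩
  set k := max a b + 1 with hk
  have hkK : K ≤ k := by
    have := le_max_left K 100
    omega
  have hk100 : 100 ≤ k := by
    have := le_max_right K 100
    omega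
  have h6 := hK k hkK
  have hk0 : (100 : ℝ) ≤ k := by exact_mod_cast hk100
  have hlk : 1 ≤ Real.log k := by
    rw [Real.le_log_iff_exp_le (by linarith)]
    have := Real.exp_one_lt_d9
    linarith
  have hkl : 100 ≤ (k : ℝ) * Real.log k := by nlinarith
  set y := (k : ℝ) * Real.log k with hy
  refine ⟨⌈Real.exp (1 / 2 * y)⌉₊, Nat.le_ceil _, ?_⟩
  rintro ⟨x, x', hx, hx', hsum, _⟩
  have h7 : iPrime (RR A ω) (k - 1) 1 ≤ 2 * ⌈Real.exp (1 / 2 * y)⌉₊ := by
    rw [← hsum]
    have h8 : k - 1 = max a b := by omega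
    rw [h8]
    rcases le_total a b with h9 | h9
    · rw [max_eq_right h9]
      have := iPrime_one_le (RR A ω) hinf b x' hx'
      omega
    · rw [max_eq_left h9]
      have := iPrime_one_le (RR A ω) hinf a x hx
      omega
  have h7r : (iPrime (RR A ω) (k - 1) 1 : ℝ) ≤ 2 * (⌈Real.exp (1 / 2 * y)⌉₊ : ℝ) := by exact_mod_cast h7
  have h8 : (⌈Real.exp (1 / 2 * y)⌉₊ : ℝ) < Real.exp (1 / 2 * y) + 1 := Nat.ceil_lt_add_one (Real.exp_pos _).le
  have h9 : 1 ≤ Real.exp (1 / 2 * y) := Real.one_le_exp (by linarith)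
  have h10 : Real.exp (3 / 5 * y) = Real.exp (1 / 2 * y) * Real.exp (1 / 10 * y) := by
    rw [← Real.exp_add]
    congr 1
    ring
  have h11 : 11 ≤ Real.exp (1 / 10 * y) := by
    have := Real.add_one_le_exp (1 / 10 * y)
    linarith
  rw [h10] at h6
  nlinarith

/-- the function `f₂` of the question -/
noncomputable def f2 (a b : ℕ) : ℝ :=
  if a = b then
    (if a = 0 then (2 : ℝ) ^ (((a : ℝ) + 1) * (b + 1) * (a + b + 2))
      else (2 : ℝ) ^ (((a : ℝ) + 1) ^ 2 * (2 * a + 3) / a - 2 * a))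
  else (2 : ℝ) ^ (((a : ℝ) + 1) * (b + 1) * (a + b + 2) - (a + b - 2))

theorem f2_large : ∃ K : ℕ, ∀ a b, K ≤ max a b →
    Real.exp (150 * (((max a b + 1 : ℕ) : ℝ) * Real.log ((max a b + 1 : ℕ) : ℝ))) ≤ f2 a b := by
  obtain ⟨K, hK⟩ := eventually_atTop.1 (log_small 300)
  refine ⟨max K 1, fun a b hab => ?_⟩
  have hk1 : 1 ≤ max a b := (le_max_right K 1).trans hab
  have hkK : K ≤ max a b + 1 := by
    have := le_max_left K 1
    omega
  have h1 := hK (max a b + 1) hkK
  set k : ℝ := ((max a b + 1 : ℕ) : ℝ) with hk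
  have hk2 : (2 : ℝ) ≤ k := by
    rw [hk]
    have : 2 ≤ max a b + 1 := by omega
    exact_mod_cast this
  have hexp : ∀ e : ℝ, k ^ 2 ≤ e → Real.exp (150 * (k * Real.log k)) ≤ (2 : ℝ) ^ e := by
    intro e he
    rw [Real.rpow_def_of_pos (by norm_num)]
    apply Real.exp_le_exp.2
    have h2 : (1 : ℝ) / 2 ≤ Real.log 2 := by
      have := Real.log_two_gt_d9
      linarith
    have h3 : 150 * (k * Real.log k) ≤ k ^ 2 / 2 := by nlinarith
    have h4 : k ^ 2 / 2 ≤ Real.log 2 * e := by nlinarith [sq_nonneg k]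
    linarith
  unfold f2
  by_cases hab' : a = b
  · subst hab'
    have hmax : max a a = a := max_self a
    have ha : a ≠ 0 := by omega
    rw [if_pos rfl, if_neg ha]
    apply hexp
    have ha1 : (1 : ℝ) ≤ a := by
      have : 1 ≤ a := by omega
      exact_mod_cast this
    have hka : k = a + 1 := by
      rw [hk, hmax]
      push_cast
      ring
    rw [hka]
    have h5 : ((a : ℝ) + 1) ^ 2 * 2 ≤ ((a : ℝ) + 1) ^ 2 * (2 * a + 3) / a := by
      rw [le_div_iff₀ (by linarith)]
      nlinarith [sq_nonneg ((a : ℝ) + 1)]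
    nlinarith
  · rw [if_neg hab']
    apply hexp
    have ha0 : (0 : ℝ) ≤ a := Nat.cast_nonneg a
    have hb0 : (0 : ℝ) ≤ b := Nat.cast_nonneg b
    rcases le_total a b with h | h
    · have hkb : k = b + 1 := by
        rw [hk, max_eq_right h]
        push_cast
        ring
      rw [hkb]
      nlinarith [mul_nonneg ha0 hb0, mul_nonneg (mul_nonneg ha0 hb0) ha0, mul_nonneg (mul_nonneg ha0 hb0) hb0]
    · have hka : k = a + 1 := by
        rw [hk, max_eq_left h]
        push_cast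
        ring
      rw [hka]
      nlinarith [mul_nonneg ha0 hb0, mul_nonneg (mul_nonneg ha0 hb0) ha0, mul_nonneg (mul_nonneg ha0 hb0) hb0]

end Pool.Agent.L5helper7.RT
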