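import Pool.Agent.L5helper7.RT.Bad

/-!
# The thresholds in the random model
-/

set_option autoImplicit false

open MeasureTheory ProbabilityTheory Finset Filter Topology
open Pool.Agent.L5helper48.RT Pool.Agent.L5helper30.RT

namespace Pool.Agent.L5helper7.RT

variable {Ω : Type*} [MeasurableSpace Ω]

/-- `log k / k → 0` in the form we need -/
lemma log_small (B : ℝ) : ∀ᶠ k : ℕ in atTop, B * Real.log k ≤ k := by
  have h1 : Tendsto (fun x : ℝ => Real.log x / x) atTop (𝓝 0) := by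
    have := Real.isLittleO_log_id_atTop.tendsto_div_nhds_zero
    simpa using this
  have h2 : Tendsto (fun k : ℕ => Real.log k / k) atTop (𝓝 0) := h1.comp tendsto_natCast_atTop_atTop
  have h3 : (0 : ℝ) < 1 / (|B| + 1) := by positivity
  filter_upwards [h2.eventually (gt_mem_nhds h3), eventually_ge_atTop 1] with k hk hk1
  have hk0 : (0 : ℝ) < k := by exact_mod_cast hk1
  rw [div_lt_div_iff₀ hk0 (by positivity)] at hk
  have h4 : 0 ≤ Real.log k := Real.log_natCast_nonneg k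
  have h5 : B ≤ |B| := le_abs_self B
  nlinarith

/-- the size condition holds beyond `exp (150 k log k)` -/
theorem asym (c : ℝ) (hc : 0 < c) : ∀ᶠ k : ℕ in atTop, ∀ n : ℕ,
    Real.exp (150 * (k * Real.log k)) ≤ n → ((ww c n) ^ k) ^ 24 ≤ n := by
  have hlog := log_top
  filter_upwards [log_small 150, hlog.eventually_ge_atTop (10 / c + 1), eventually_ge_atTop 3] with k h1 h2 h3
  intro n hn
  have hn0 : (0 : ℝ) < n := lt_of_lt_of_le (Real.exp_pos _) hn
  set ℓ := Real.log n with hℓ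
  have hk3 : (3 : ℝ) ≤ k := by exact_mod_cast h3
  have hk0 : (0 : ℝ) < k := by linarith
  have h10c : 0 < 10 / c := by positivity
  have hlk : 1 ≤ Real.log k := by linarith
  set ℓ₀ := 150 * (k * Real.log k) with hℓ₀
  have hℓ1 : ℓ₀ ≤ ℓ := by
    rw [hℓ, Real.le_log_iff_exp_le hn0]
    exact hn
  have hℓ₀pos : 0 < ℓ₀ := by positivity
  have hℓ₀k : 150 * k ≤ ℓ₀ := by
    rw [hℓ₀]
    nlinarith
  have hℓpos : 0 < ℓ := by linarith
  have hlogk : Real.log k ≤ k := by linarith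
  have hℓbig : 10 / c + 1 ≤ ℓ := by linarith
  -- `ww ≤ ℓ ^ 3`
  have hww : (ww c n : ℝ) ≤ ℓ ^ 3 := by
    have h4 : (ww c n : ℝ) < 10 / c * ℓ ^ 2 + 1 := Nat.ceil_lt_add_one (by positivity)
    have h5 : 1 ≤ ℓ ^ 2 := one_le_pow₀ (by linarith)
    nlinarith
  -- `log ℓ`
  have hlogℓ₀ : Real.log ℓ₀ ≤ 2 * Real.log k := by
    have h6 : ℓ₀ ≤ (k : ℝ) ^ 2 := by
      rw [hℓ₀]
      nlinarith
    calc Real.log ℓ₀ ≤ Real.log ((k : ℝ) ^ 2) := Real.log_le_log hℓ₀pos h6
      _ = 2 * Real.log k := by rw [Real.log_pow]; norm_num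
  have hlogℓ : Real.log ℓ ≤ 2 * Real.log k + (ℓ / ℓ₀ - 1) := by
    have h7 : Real.log (ℓ / ℓ₀) ≤ ℓ / ℓ₀ - 1 := Real.log_le_sub_one_of_pos (by positivity)
    rw [Real.log_div hℓpos.ne' hℓ₀pos.ne'] at h7
    linarith
  have hmain : 72 * k * Real.log ℓ ≤ ℓ := by
    have h8 : 72 * k * (ℓ / ℓ₀ - 1) ≤ ℓ - ℓ₀ := by
      have h9 : ℓ / ℓ₀ - 1 = (ℓ - ℓ₀) / ℓ₀ := by field_simp
      rw [h9, mul_div_assoc', div_le_iff₀ hℓ₀pos]
      have h10 : 0 ≤ ℓ - ℓ₀ := by linarith
      nlinarith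
    have h11 : 72 * k * Real.log ℓ ≤ 72 * k * (2 * Real.log k + (ℓ / ℓ₀ - 1)) :=
      mul_le_mul_of_nonneg_left hlogℓ (by positivity)
    have h12 : 72 * k * (2 * Real.log k) ≤ ℓ₀ := by
      rw [hℓ₀]
      nlinarith
    linarith
  have hreal : (((ww c n) ^ k) ^ 24 : ℝ) ≤ n := by
    calc (((ww c n : ℝ)) ^ k) ^ 24 = (ww c n : ℝ) ^ (24 * k) := by rw [← pow_mul]; ring_nf
      _ ≤ (ℓ ^ 3) ^ (24 * k) := pow_le_pow_left₀ (Nat.cast_nonneg _) hww _
      _ = ℓ ^ (72 * k) := by rw [← pow_mul]; ring_nf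
      _ = Real.exp (Real.log (ℓ ^ (72 * k))) := (Real.exp_log (by positivity)).symm
      _ = Real.exp (72 * k * Real.log ℓ) := by rw [Real.log_pow]; push_cast; ring_nf
      _ ≤ Real.exp ℓ := Real.exp_le_exp.2 hmain
      _ = n := by rw [hℓ, Real.exp_log hn0]
  exact_mod_cast hreal

lemma good_hasRep (A : ℕ → Set Ω) (ω : Ω) (hinf : (RR A ω).Infinite) (a b n : ℕ)
    (h : Good a b n (TT A (2 * n) ω)) : HasRep (RR A ω) a b (2 * n) := by
  classical
  obtain ⟨u, v, huv, hsum, hu, hv⟩ := h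
  have hloc : ∀ j, 1 ≤ j → j ≤ 2 * n → (j ∈ ((TT A (2 * n) ω : Finset ℕ) : Set ℕ) ↔ j ∈ RR A ω) := by
    intro j hj1 hj2
    unfold TT RR
    simp only [coe_filter, mem_Icc, Set.mem_setOf_eq]
    constructor
    · rintro ⟨_, h⟩
      exact ⟨hj1, h⟩
    · rintro ⟨_, h⟩
      exact ⟨⟨hj1, hj2⟩, h⟩
  rw [← hsum]
  exact hasRep_of _ hinf a b u v ((isP_local _ _ (2 * n) hloc a u (by omega)).1 hu)
    ((isP_local _ _ (2 * n) hloc b v (by omega)).1 hv) huv

theorem upper (μ : Measure Ω) [IsProbabilityMeasure μ] (A : ℕ → Set Ω) (hA : ∀ m, MeasurableSet (A m))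
    (hind : iIndepSet A μ) (c C : ℝ) (hc : 0 < c) (m₀ : ℕ) (hM : Model μ A c C m₀) :
    ∀ᵐ ω ∂μ, (RR A ω).Infinite ∧ (∀ a b, ∃ n₀ : ℕ, ∀ n ≥ n₀, HasRep (RR A ω) a b (2 * n)) ∧
      ∃ K : ℕ, ∀ a b, K ≤ max a b → ∀ n : ℕ,
        Real.exp (150 * (((max a b + 1 : ℕ) : ℝ) * Real.log ((max a b + 1 : ℕ) : ℝ))) ≤ n →
          HasRep (RR A ω) a b (2 * n) := by
  obtain ⟨K1, hK1⟩ := eventually_atTop.1 (asym c hc)
  filter_upwards [good_ae μ A hA hind c C hc m₀ hM] with ω hω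
  obtain ⟨N, hN⟩ := eventually_atTop.1 hω
  have hinf : (RR A ω).Infinite := by
    rw [Set.infinite_iff_exists_gt]
    intro t
    set k := K1 + 1 with hk
    obtain ⟨n, hn1⟩ := exists_nat_ge (max (Real.exp (150 * (k * Real.log k))) (max (N : ℝ) (t + 1)))
    have h1 := hK1 k (by omega) n ((le_max_left _ _).trans hn1)
    have h2 : (N : ℝ) ≤ n := ((le_max_left _ _).trans (le_max_right _ _)).trans hn1
    have h3 : ((t : ℝ) + 1) ≤ n := ((le_max_right _ _).trans (le_max_right _ _)).trans hn1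
    have h2' : N ≤ n := by exact_mod_cast h2
    have h3' : t + 1 ≤ n := by exact_mod_cast h3
    obtain ⟨u, v, huv, hsum, hu, hv⟩ := hN n h2' 0 0 k (by omega) (by omega) h1
    have hmem : ∀ x, IsP ((TT A (2 * n) ω : Finset ℕ) : Set ℕ) 0 x → x ∈ RR A ω := by
      classical
      intro x hx
      have h4 : x ∈ TT A (2 * n) ω := by exact_mod_cast hx.2
      unfold TT at h4
      rw [mem_filter] at h4
      exact ⟨hx.1, h4.2⟩
    rcases le_or_gt u v with h5 | h5
    · exact ⟨v, hmem v hv, by omega⟩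
    · exact ⟨u, hmem u hu, by omega⟩
  have key : ∀ k, K1 ≤ k → ∀ a b, a + 1 ≤ k → b + 1 ≤ k → ∀ n : ℕ, N ≤ n →
      Real.exp (150 * (k * Real.log k)) ≤ n → HasRep (RR A ω) a b (2 * n) := by
    intro k hk a b ha hb n hn hexp
    exact good_hasRep A ω hinf a b n (hN n hn a b k ha hb (hK1 k hk n hexp))
  refine ⟨hinf, ?_, ?_⟩
  · intro a b
    set k := max K1 (max (a + 1) (b + 1)) with hk
    obtain ⟨n₀, hn₀⟩ := exists_nat_ge (max (Real.exp (150 * (k * Real.log k))) (N : ℝ))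
    refine ⟨n₀, fun n hn => ?_⟩
    have hnn : (n₀ : ℝ) ≤ n := by exact_mod_cast hn
    have h2 : (N : ℝ) ≤ n := ((le_max_right _ _).trans hn₀).trans hnn
    exact key k (le_max_left _ _) a b ((le_max_left _ _).trans (le_max_right _ _))
      ((le_max_right _ _).trans (le_max_right _ _)) n (by exact_mod_cast h2)
      (((le_max_left _ _).trans hn₀).trans hnn)
  · refine ⟨max (max K1 N) 3, fun a b hab n hn => ?_⟩
    set k := max a b + 1 with hk
    have hk1 : K1 ≤ k := by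
      have := (le_max_left K1 N).trans (le_max_left _ 3)
      omega
    have hkN : N ≤ k := by
      have := (le_max_right K1 N).trans (le_max_left _ 3)
      omega
    have hk3 : 3 ≤ k := by
      have := le_max_right (max K1 N) 3
      omega
    have hkn : (k : ℝ) ≤ n := by
      refine le_trans ?_ hn
      have h3 : (3 : ℝ) ≤ k := by exact_mod_cast hk3
      have h4 : 1 ≤ Real.log k := by
        rw [Real.le_log_iff_exp_le (by linarith)]
        have := Real.exp_one_lt_d9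
        linarith
      have h5 : Real.log k ≤ 150 * (k * Real.log k) := by nlinarith
      calc (k : ℝ) = Real.exp (Real.log k) := (Real.exp_log (by linarith)).symm
        _ ≤ Real.exp (150 * (k * Real.log k)) := Real.exp_le_exp.2 h5
    have hkn' : k ≤ n := by exact_mod_cast hkn
    exact key k hk1 a b (by omega) (by omega) n (by omega) hn

end Pool.Agent.L5helper7.RT
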