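import Pool.Agent.L5helper7.RT.Fin

/-!
# Probability that one even integer has no representation of one type
-/

set_option autoImplicit false

open MeasureTheory ProbabilityTheory Finset Pool.Agent.L5helper48.RT Pool.Agent.L5helper30.RT

namespace Pool.Agent.L5helper7.RT

variable {Ω : Type*} [MeasurableSpace Ω]

open Classical in
/-- the chosen integers up to `N` -/
noncomputable def TT (A : ℕ → Set Ω) (N : ℕ) (ω : Ω) : Finset ℕ := (Icc 1 N).filter (fun m => ω ∈ A m)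

/-- the chosen integers -/
def RR (A : ℕ → Set Ω) (ω : Ω) : Set ℕ := {m | 1 ≤ m ∧ ω ∈ A m}

/-- the good event -/
def G0 (x1 m0 w n : ℕ) (T : Finset ℕ) : Prop :=
  (∀ x, x1 ≤ x → x + w ≤ n → ∃ m, m ∈ T ∧ x ≤ m ∧ m < x + w) ∧ ∀ m ∈ T, m0 < m → Odd m

lemma rho01 (μ : Measure Ω) [IsProbabilityMeasure μ] (A : ℕ → Set Ω) (m : ℕ) :
    0 ≤ (μ (A m)).toReal ∧ (μ (A m)).toReal ≤ 1 := by
  refine ⟨ENNReal.toReal_nonneg, ?_⟩
  have := prob_le_one (μ := μ) (s := A m)
  exact ENNReal.toReal_le_of_le_ofReal zero_le_one (by simpa using this)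

open Classical in
theorem step1 (μ : Measure Ω) [IsProbabilityMeasure μ] (A : ℕ → Set Ω) (hA : ∀ m, MeasurableSet (A m))
    (hind : iIndepSet A μ) (q : ℝ) (hq0 : 0 < q) (hq1 : q ≤ 1 / 2)
    (n w k x1 m0 a b : ℕ) (hw : 10 ≤ w) (hqw : 1 ≤ q * w) (hx1 : 2 ≤ x1) (hx1w : x1 ≤ w) (hm0w : m0 ≤ w)
    (hka : a + 1 ≤ k) (hkb : b + 1 ≤ k) (hn : (w ^ k) ^ 24 ≤ n)
    (hodd : ∀ m, n < m → m ≤ 2 * n → Odd m → q ≤ (μ (A m)).toReal ∧ (μ (A m)).toReal ≤ 1 - q)
    (heven : ∀ m, n < m → m ≤ 2 * n → Even m → (μ (A m)).toReal = 0) :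
    (μ {ω | ¬ Good a b n (TT A (2 * n) ω)}).toReal ≤
      Real.exp (-√(n : ℝ)) + (μ {ω | ¬ G0 x1 m0 w n (TT A n ω)}).toReal := by
  set ρ : ℕ → ℝ := fun m => (μ (A m)).toReal with hρd
  have hρ : ∀ m, 0 ≤ ρ m ∧ ρ m ≤ 1 := rho01 μ A
  have h1 := prob_ex μ A hA hind (2 * n) (fun T => ¬ Good a b n T)
  have h2 := prob_ex μ A hA hind n (fun T => ¬ G0 x1 m0 w n T)
  have h1' : (μ {ω | ¬ Good a b n (TT A (2 * n) ω)}).toReal =
      Ex ρ 0 (2 * n) (fun T => if ¬ Good a b n T then 1 else 0) ∅ := by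
    unfold TT
    convert h1
  have h2' : (μ {ω | ¬ G0 x1 m0 w n (TT A n ω)}).toReal =
      Ex ρ 0 n (fun T => if ¬ G0 x1 m0 w n T then 1 else 0) ∅ := by
    unfold TT
    convert h2
  rw [h1', h2']
  have h3 : 2 * n = n + n := by ring
  rw [h3, ex_add]
  have h4 : Ex ρ 0 n (fun T' => Ex ρ (0 + n) n (fun T => if ¬ Good a b n T then 1 else 0) T') ∅ ≤
      Ex ρ 0 n (fun T' => Real.exp (-√(n : ℝ)) * 1 + 1 * (if ¬ G0 x1 m0 w n T' then 1 else 0)) ∅ := by
    apply ex_mono ρ hρ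
    intro U hU _
    rw [empty_union, zero_add]
    have hU' : U ⊆ Icc 1 n := by
      intro m hm
      have := mem_Ioc.1 (hU hm)
      rw [mem_Icc]
      omega
    by_cases hG : G0 x1 m0 w n U
    · have h5 := fin_main ρ hρ q hq0 hq1 n w k x1 m0 a b hw hqw hx1 hx1w hm0w hka hkb hn hodd heven U hU'
        hG.1 hG.2
      have h6 : (fun T => if ¬ Good a b n T then (1 : ℝ) else 0) = (fun T => if Good a b n T then 0 else 1) := by
        funext T
        by_cases h : Good a b n T <;> simp [h]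
      rw [h6]
      have h7 : (if ¬ G0 x1 m0 w n U then (1 : ℝ) else 0) = 0 := by simp [hG]
      rw [h7]
      have h8 : Ex ρ n n (fun T => if Good a b n T then (0 : ℝ) else 1) U ≤ Real.exp (-√(n : ℝ)) := by
        convert h5
      linarith
    · have h7 : (if ¬ G0 x1 m0 w n U then (1 : ℝ) else 0) = 1 := by simp [hG]
      rw [h7]
      have h8 : Ex ρ n n (fun T => if ¬ Good a b n T then (1 : ℝ) else 0) U ≤ Ex ρ n n (fun _ => (1 : ℝ)) U := by
        apply ex_mono ρ hρ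
        intro V _ _
        split_ifs <;> norm_num
      rw [ex_const] at h8
      have := Real.exp_pos (-√(n : ℝ))
      linarith
  refine h4.trans ?_
  have h9 := ex_lin ρ 0 n (Real.exp (-√(n : ℝ))) 1 (fun _ => (1 : ℝ)) (fun T' => if ¬ G0 x1 m0 w n T' then 1 else 0) ∅
  rw [h9, ex_const]
  linarith

/-- the probability that the good event fails -/
theorem step2 (μ : Measure Ω) [IsProbabilityMeasure μ] (A : ℕ → Set Ω) (hA : ∀ m, MeasurableSet (A m))
    (hind : iIndepSet A μ) (q : ℝ) (hq0 : 0 ≤ q) (n w x1 m0 : ℕ) (hx1 : 1 ≤ x1)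
    (hodd : ∀ m, x1 ≤ m → m ≤ n → Odd m → q ≤ (μ (A m)).toReal)
    (heven : ∀ m, m0 < m → m ≤ n → Even m → μ (A m) = 0) :
    μ {ω | ¬ G0 x1 m0 w n (TT A n ω)} ≤
      ENNReal.ofReal ((n + 1) * Real.exp (-(q * ((w : ℝ) / 2 - 1)))) := by
  classical
  have hsub : {ω | ¬ G0 x1 m0 w n (TT A n ω)} ⊆
      (⋃ x ∈ (range (n + 1)).filter (fun x => x1 ≤ x ∧ x + w ≤ n), {ω | ∀ m, x ≤ m → m < x + w → ω ∉ A m}) ∪
        ⋃ m ∈ (range (n + 1)).filter (fun m => m0 < m ∧ Even m), A m := by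
    intro ω hω
    by_contra hcon
    apply hω
    simp only [Set.mem_union, Set.mem_iUnion, not_or, not_exists, Set.mem_setOf_eq, mem_filter, mem_range,
      not_forall] at hcon
    obtain ⟨h1, h2⟩ := hcon
    constructor
    · intro x hx hxn
      have h3 := h1 x ⟨by omega, hx, hxn⟩
      obtain ⟨m, h4, h5, h6⟩ := h3
      rw [not_not] at h6
      refine ⟨m, ?_, h4, h5⟩
      unfold TT
      rw [mem_filter, mem_Icc]
      exact ⟨⟨by omega, by omega⟩, h6⟩
    · intro m hm hmm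
      unfold TT at hm
      rw [mem_filter, mem_Icc] at hm
      by_contra hodd'
      rw [Nat.not_odd_iff_even] at hodd'
      exact h2 m ⟨by omega, hmm, hodd'⟩ hm.2
  refine (measure_mono hsub).trans ((measure_union_le _ _).trans ?_)
  have hB : μ (⋃ m ∈ (range (n + 1)).filter (fun m => m0 < m ∧ Even m), A m) = 0 := by
    rw [← nonpos_iff_eq_zero]
    refine (measure_biUnion_finset_le _ _).trans ?_
    rw [nonpos_iff_eq_zero]
    apply Finset.sum_eq_zero
    intro m hm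
    rw [mem_filter, mem_range] at hm
    exact heven m hm.2.1 (by omega) hm.2.2
  rw [hB, add_zero]
  refine (measure_biUnion_finset_le _ _).trans ?_
  have h1 : ∀ x ∈ (range (n + 1)).filter (fun x => x1 ≤ x ∧ x + w ≤ n),
      μ {ω | ∀ m, x ≤ m → m < x + w → ω ∉ A m} ≤ ENNReal.ofReal (Real.exp (-(q * ((w : ℝ) / 2 - 1)))) := by
    intro x hx
    rw [mem_filter, mem_range] at hx
    have h2 := prob_window μ A hA hind x w q hq0 (fun m h1 h2 h3 => hodd m (by omega) (by omega) h3)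
    exact (ENNReal.le_ofReal_iff_toReal_le (measure_ne_top _ _) (Real.exp_pos _).le).2 h2
  refine (Finset.sum_le_card_nsmul _ _ _ h1).trans ?_
  rw [nsmul_eq_mul, ENNReal.ofReal_mul (by positivity)]
  gcongr
  have h3 : (((range (n + 1)).filter (fun x => x1 ≤ x ∧ x + w ≤ n)).card : ℝ) ≤ (n : ℝ) + 1 := by
    have := (card_filter_le (range (n + 1)) (fun x => x1 ≤ x ∧ x + w ≤ n))
    rw [card_range] at this
    exact_mod_cast this
  rw [← ENNReal.ofReal_natCast]
  exact ENNReal.ofReal_le_ofReal h3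

end Pool.Agent.L5helper7.RT
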